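import Pool.Agent.H9.Lib.R_seed8.H612.LR.Defs

/-!
# Ultimate Positivity in `∀ℝ`: the statements of the lemmas (mathematical part)
-/

namespace Pool.Agent.H612.LR

open Polynomial Filter Topology

/-! ### Soundness of the certificates -/

/-- KRO: Kronecker's theorem (with an arbitrarily large exponent). -/
def S_KRO : Prop := ∀ (D : Finset ℕ) (g w : ℕ → ℂ), (∀ i ∈ D, ‖g i‖ = 1 ∧ ‖w i‖ = 1) →
  (∀ e : ℕ → ℤ, mon D g e = 1 → mon D w e = 1) →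
  ∀ ε : ℝ, 0 < ε → ∀ T : ℕ, ∃ t, T ≤ t ∧ ∀ i ∈ D, ‖g i ^ t - w i‖ < ε

/-- CORE: relations of moderate size are orthogonal to all exponent vectors of a chain. -/
def S_CORE : Prop := ∀ (k q N : ℕ) (D : Finset ℕ) (g : ℕ → ℂ) (P : ℕ → ℕ) (a b : ℕ → ℕ → ℕ)
  (ζ : ℂ) (ξ : ℕ → ℂ) (h : ℕ → ℕ → ℂ), 1 ≤ q → Chain k q N D g P a b ζ ξ h →
  ∀ e : ℕ → ℤ, mon D g e = 1 → 8 * ∑ i ∈ D, |e i| ≤ 2 ^ N →
    ∀ j < k, ξ j ≠ 1 → ∑ i ∈ D, e i * ((a j i : ℤ) - (b j i : ℤ)) = 0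

/-- LIN: a linear form vanishing on all small relations vanishes on all relations. -/
def S_LIN : Prop := ∀ (D : Finset ℕ) (g : ℕ → ℂ) (B : ℤ) (A : ℕ → ℤ), (∀ i ∈ D, g i ≠ 0) →
  (∀ e : ℕ → ℤ, mon D g e = 1 → (∃ i ∈ D, e i ≠ 0) →
    ∃ e' : ℕ → ℤ, mon D g e' = 1 ∧ (∃ i ∈ D, e' i ≠ 0) ∧ (∀ i ∈ D, e i = 0 → e' i = 0) ∧
      ∀ i ∈ D, |e' i| ≤ B) →
  (∀ e : ℕ → ℤ, mon D g e = 1 → (∀ i ∈ D, |e i| ≤ B) → ∑ i ∈ D, e i * A i = 0) →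
  ∀ e : ℕ → ℤ, mon D g e = 1 → ∑ i ∈ D, e i * A i = 0

/-- ASY: the dominant part decides the sign. -/
def S_ASY : Prop := ∀ (k : ℕ) (D W : Finset ℕ) (lam : ℕ → ℂ) (c : ℕ → ℕ → ℂ) (ρ δ : ℝ) (J : ℕ),
  0 < ρ → 0 < δ → J < k → (∀ i ∈ D, ‖lam i‖ = ρ) → (∀ i ∈ W, ‖lam i‖ < ρ) →
  ∃ T : ℕ, ∀ n, T ≤ n → (∑ i ∈ D, c i J * (lam i / (ρ : ℂ)) ^ n).re ≤ -δ →
    (∑ i ∈ D, ∑ j ∈ Finset.range (J + 1), c i j * (n.choose j : ℂ) * lam i ^ n +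
      ∑ i ∈ W, ∑ j ∈ Finset.range k, c i j * (n.choose j : ℂ) * lam i ^ n).re < 0

/-- VAN: cancellation in a residue class. -/
def S_VAN : Prop := ∀ (U : Finset ℕ) (K : ℕ) (κ : ℕ → ℕ) (lam d : ℕ → ℂ) (m q : ℕ),
  (∀ i ∈ U, κ i < K ∧ lam i ^ q = lam (κ i) ^ q) →
  (∀ s < K, ∑ i ∈ U.filter (fun i => κ i = s), d i * lam i ^ m = 0) →
  ∀ t : ℕ, ∑ i ∈ U, d i * lam i ^ (m + q * t) = 0

/-- RPU: a representation which is correct on a long enough interval is correct. -/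
def S_RPU : Prop := ∀ (l : Rec) (lam : ℕ → ℂ) (c : ℕ → ℕ → ℂ), 1 ≤ l.length →
  RepF l lam c (2 * l.length + l.length ^ 2) → Rep l lam c

/-- MAS: small relations between the normalised characteristic roots of the same modulus. -/
def S_MAS : Prop := ∃ C : ℕ, ∀ l : Rec, 1 ≤ l.length → ∀ (D : Finset ℕ) (lam : ℕ → ℂ) (ρ : ℝ),
  0 < ρ → D.card ≤ l.length → (∀ i ∈ D, IsRoot l (lam i) ∧ ‖lam i‖ = ρ) →
  ∀ e : ℕ → ℤ, mon D (fun i => lam i / (ρ : ℂ)) e = 1 → (∃ i ∈ D, e i ≠ 0) →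
    ∃ e' : ℕ → ℤ, mon D (fun i => lam i / (ρ : ℂ)) e' = 1 ∧ (∃ i ∈ D, e' i ≠ 0) ∧
      (∀ i ∈ D, e i = 0 → e' i = 0) ∧ ∀ i ∈ D, |e' i| ≤ 2 ^ (C * sz l ^ C)

/-- DENS: the point of a certificate is a limit of powers in the residue class. -/
def S_DENS : Prop := ∃ A0 : ℕ, ∀ (l : Rec) (d : CD), 1 ≤ l.length → 0 < d.ρ → 1 ≤ d.q →
  (∀ i ∈ d.S l.length 1, IsRoot l (d.lam i) ∧ ‖d.lam i‖ = d.ρ) →
  Chain l.length d.q (A0 * sz l ^ A0) (d.S l.length 1) (fun i => d.lam i / (d.ρ : ℂ)) d.P d.a d.b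
    d.ζ d.ξ d.h →
  (∀ j < l.length, ‖d.x j‖ = 1 ∧ (d.ξ j = 1 → d.x j = 1)) →
  ∀ ε : ℝ, 0 < ε → ∀ T : ℕ, ∃ t, T ≤ t ∧ ∀ i ∈ d.S l.length 1,
    ‖(d.lam i / (d.ρ : ℂ)) ^ (d.m + d.q * t) - d.z l.length i‖ < ε

/-- SND: certificates are sound. -/
def S_SND : Prop := ∃ A0 : ℕ, ∀ (l : Rec) (Nb : ℕ), 1 ≤ l.length →
  Cert l Nb (A0 * sz l ^ A0) → ¬ UltPositive l

/-! ### Number theory -/

/-- DIR: Dirichlet's theorem on simultaneous approximation. -/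
def S_DIR : Prop := ∀ (D : Finset ℕ) (X : ℕ) (r : ℕ → ℝ), 1 ≤ X →
  ∃ (t : ℕ) (m : ℕ → ℤ), 1 ≤ t ∧ t ≤ X ^ D.card ∧ ∀ i ∈ D, |(t : ℝ) * r i - m i| * X ≤ 1

/-- HLOW: lower bound for the height of numbers which are not roots of unity. -/
def S_HLOW : Prop := ∃ C : ℕ, ∀ (K : Type) [Field K] [NumberField K] (x : K), x ≠ 0 →
  (∀ n : ℕ, 1 ≤ n → x ^ n ≠ 1) →
    1 ≤ Height.logHeight₁ x * ((C * Module.finrank ℚ K : ℕ) : ℝ) ^ C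

/-- TORK: orders of roots of unity. -/
def S_TORK : Prop := ∃ C : ℕ, ∀ (K : Type) [Field K] [NumberField K] (x : K),
  (∃ n : ℕ, 1 ≤ n ∧ x ^ n = 1) → ∃ n : ℕ, 1 ≤ n ∧ n ≤ (C * Module.finrank ℚ K) ^ C ∧ x ^ n = 1

/-- MASK: small multiplicative relations in a number field. -/
def S_MASK : Prop := ∃ C : ℕ, ∀ (K : Type) [Field K] [NumberField K] (D : Finset ℕ) (α : ℕ → K)
  (H : ℕ), (∀ i ∈ D, α i ≠ 0 ∧ Height.logHeight₁ (α i) ≤ H) → ∀ e : ℕ → ℤ,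
  ∏ i ∈ D, α i ^ e i = 1 → (∃ i ∈ D, e i ≠ 0) →
    ∃ e' : ℕ → ℤ, ∏ i ∈ D, α i ^ e' i = 1 ∧ (∃ i ∈ D, e' i ≠ 0) ∧
      (∀ i ∈ D, e i = 0 → e' i = 0) ∧
      ∀ i ∈ D, |e' i| ≤ ((C * Module.finrank ℚ K * (D.card + 1) * (H + 1)) ^ (C * (D.card + 1)) : ℕ)

/-- HROOT: heights of characteristic roots. -/
def S_HROOT : Prop := ∃ C : ℕ, ∀ (K : Type) [Field K] [NumberField K] (l : Rec) (α : K),
  1 ≤ l.length →
  α ^ l.length = ∑ i ∈ Finset.range l.length, algebraMap ℚ K (coef l i) * α ^ (l.length - 1 - i) →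
    Height.logHeight₁ α ≤ Module.finrank ℚ K * (C * sz l ^ C : ℕ)

/-- FLD: a number field containing all characteristic roots. -/
def S_FLD : Prop := ∀ l : Rec, 1 ≤ l.length →
  ∃ (K : Type) (_ : Field K) (_ : NumberField K) (φ : K →+* ℂ),
    Module.finrank ℚ K ≤ l.length ^ l.length ∧ ∀ z : ℂ, IsRoot l z → ∃ α : K, φ α = z

/-- TOR: a common exponent for the quotients of characteristic roots which are roots of unity. -/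
def S_TOR : Prop := ∃ C : ℕ, ∀ l : Rec, 1 ≤ l.length → ∃ q0 : ℕ, 1 ≤ q0 ∧ q0 ≤ 2 ^ (C * sz l ^ C) ∧
  ∀ z w : ℂ, IsRoot l z → IsRoot l w → z ≠ 0 → w ≠ 0 → ∀ t : ℕ, 1 ≤ t → z ^ t = w ^ t →
    z ^ q0 = w ^ q0

/-- SML: the theorem of Skolem, Mahler and Lech. -/
def S_SML : Prop := ∀ l : Rec, 1 ≤ l.length → (∀ N : ℕ, ∃ n, N ≤ n ∧ seq l n = 0) →
  ∃ n0 T : ℕ, l.length ≤ n0 ∧ 1 ≤ T ∧ ∀ t : ℕ, seq l (n0 + T * t) = 0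

/-! ### Completeness of the certificates -/

/-- DEC: existence of chains. -/
def S_DEC : Prop := ∀ (k N q0 : ℕ) (D : Finset ℕ) (g : ℕ → ℂ), D.card ≤ k → 1 ≤ q0 →
  (∀ i ∈ D, ‖g i‖ = 1) →
  ∃ (Q : ℕ) (P : ℕ → ℕ) (a b : ℕ → ℕ → ℕ) (ζ : ℂ) (ξ : ℕ → ℂ) (h : ℕ → ℕ → ℂ), 1 ≤ Q ∧
    Q ≤ (q0 * 2 ^ (N + 6)) ^ k ∧ (∀ i, P i ≤ Q) ∧
    (∀ j i, a j i ≤ 2 ^ ((N + 2) * k) ∧ b j i ≤ 2 ^ ((N + 2) * k)) ∧
    Chain k (Q * q0) N D g P a b ζ ξ h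

/-- RPE: existence of representations; `c i j = 0` when `j` is at least the multiplicity of the
characteristic root `lam i` (in particular if `lam i` is not a characteristic root). -/
def S_RPE : Prop := ∀ l : Rec, 1 ≤ l.length → ∃ (lam : ℕ → ℂ) (c : ℕ → ℕ → ℂ), Rep l lam c ∧
  (∀ i < l.length, ∀ j < l.length, (croots l).count (lam i) ≤ j → c i j = 0) ∧
  ∀ i < l.length, ∀ j < l.length, IsAlgebraic ℚ (c i j)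

/-- MEAN: an exponential sum with distinct unimodular bases which tends to zero is zero. -/
def S_MEAN : Prop := ∀ (D : Finset ℕ) (g c : ℕ → ℂ), (∀ i ∈ D, ‖g i‖ = 1) →
  (∀ i ∈ D, ∀ i' ∈ D, g i = g i' → i = i') →
  Tendsto (fun n : ℕ => ∑ i ∈ D, c i * g i ^ n) atTop (𝓝 0) → ∀ i ∈ D, c i = 0

/-- The certificate before the numbers of the chain are chosen: here `d.m` is an exponent `n` with
`Re ∑ c_i γ_i^n < 0`. -/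
def CD.Pre (d : CD) (l : Rec) : Prop :=
  d.Lev l ∧ d.J < l.length ∧
    (d.ρ = 0 ∨ (∑ i ∈ d.S l.length 1, d.c i d.J * (d.lam i / (d.ρ : ℂ)) ^ d.m).re < 0)

/-- CLA: recurrences which are not tight. -/
def S_CLA : Prop := ∀ (l : Rec) (lam : ℕ → ℂ) (c : ℕ → ℕ → ℂ), 1 ≤ l.length → Rep l lam c →
  (∀ i < l.length, (∃ j < l.length, c i j ≠ 0) → IsRoot l (lam i)) →
  NonTight l → ¬ UltPositive l → ∃ d : CD, d.lam = lam ∧ d.c = c ∧ d.q = 1 ∧ d.Pre l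

/-- CLB: simple recurrences whose characteristic roots have the same modulus. -/
def S_CLB : Prop := ∀ (l : Rec) (lam : ℕ → ℂ) (c : ℕ → ℕ → ℂ) (q0 : ℕ), 1 ≤ l.length →
  Rep l lam c → (∀ i < l.length, (∃ j < l.length, c i j ≠ 0) → IsRoot l (lam i)) →
  (∀ i < l.length, ∀ j < l.length, 0 < j → c i j = 0) → 1 ≤ q0 →
  (∀ z w : ℂ, IsRoot l z → IsRoot l w → z ≠ 0 → w ≠ 0 → ∀ t : ℕ, 1 ≤ t → z ^ t = w ^ t →
    z ^ q0 = w ^ q0) →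
  (∀ z w : ℂ, IsRoot l z → IsRoot l w → ‖z‖ = ‖w‖) →
  ¬ UltPositive l → ∃ d : CD, d.lam = lam ∧ d.c = c ∧ d.q = q0 ∧ d.Pre l

/-- CLC: simple recurrences, under the growth theorem. -/
def S_CLC : Prop := GrowthTheorem → ∀ (l : Rec) (lam : ℕ → ℂ) (c : ℕ → ℕ → ℂ) (q0 : ℕ),
  1 ≤ l.length → Rep l lam c →
  (∀ i < l.length, (∃ j < l.length, c i j ≠ 0) → IsRoot l (lam i)) →
  (∀ i < l.length, ∀ j < l.length, 0 < j → c i j = 0) →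
  (∀ i < l.length, IsAlgebraic ℚ (c i 0)) → 1 ≤ q0 →
  (∀ z w : ℂ, IsRoot l z → IsRoot l w → z ≠ 0 → w ≠ 0 → ∀ t : ℕ, 1 ≤ t → z ^ t = w ^ t →
    z ^ q0 = w ^ q0) →
  ¬ UltPositive l → ∃ d : CD, d.lam = lam ∧ d.c = c ∧ d.q = q0 ∧ d.Pre l

/-- CMP: from the level data to a certificate. -/
def S_CMP : Prop := ∀ A0 C : ℕ, ∃ A1 : ℕ, ∀ (l : Rec) (d : CD), 1 ≤ l.length → Rep l d.lam d.c →
  d.Pre l → d.q ≤ 2 ^ (C * sz l ^ C) → Cert l (A1 * sz l ^ A1) (A0 * sz l ^ A0)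

/-- ROOT: the two descriptions of characteristic roots. -/
def S_ROOT : Prop := ∀ (l : Rec) (z : ℂ), 1 ≤ l.length → (IsRoot l z ↔ z ∈ croots l)

end Pool.Agent.H612.LR
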