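import Pool.Agent.H9.Lib.R_seed8.H612.LR.Stm
import Pool.Agent.H9.Lib.R_seed8.H853R2.Skolem.Count

/-!
# Task SML: the theorem of Skolem-Mahler-Lech for the sequences `seq l`
-/

set_option autoImplicit false

namespace Pool.Agent.H612.LR

open Polynomial Pool.Agent.H853R2.Skolem

theorem SML_rec (l : Rec) (n : ℕ) : seq l (n + l.length) =
    ∑ i ∈ Finset.range l.length, coef l i * seq l (n + l.length - 1 - i) := by
  rw [seq, if_neg (by omega), Finset.sum_range]

theorem SML_den (a : ℕ → ℚ) (k : ℕ) : ∃ D : ℕ, 0 < D ∧ ∀ i < k, ∃ z : ℤ, (D : ℚ) * a i = z := by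
  induction k with
  | zero => exact ⟨1, one_pos, fun i hi => absurd hi (Nat.not_lt_zero i)⟩
  | succ k ih =>
    obtain ⟨D, hD, h⟩ := ih
    refine ⟨D * (a k).den, Nat.mul_pos hD (a k).den_pos, fun i hi => ?_⟩
    rcases Nat.lt_succ_iff_lt_or_eq.mp hi with h1 | h1
    · obtain ⟨z, hz⟩ := h i h1
      refine ⟨z * (a k).den, ?_⟩
      push_cast
      rw [← hz]
      ring
    · subst h1
      refine ⟨D * (a i).num, ?_⟩
      push_cast
      rw [mul_assoc, mul_comm ((a i).den : ℚ), Rat.mul_den_eq_num]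

theorem SML_den2 (a b : ℕ → ℚ) (k : ℕ) : ∃ D : ℕ, 0 < D ∧
    (∀ i < k, ∃ z : ℤ, (D : ℚ) * a i = z) ∧ ∀ i < k, ∃ z : ℤ, (D : ℚ) * b i = z := by
  obtain ⟨D1, h1, h2⟩ := SML_den a k
  obtain ⟨D2, h3, h4⟩ := SML_den b k
  refine ⟨D1 * D2, Nat.mul_pos h1 h3, fun i hi => ?_, fun i hi => ?_⟩
  · obtain ⟨z, hz⟩ := h2 i hi
    refine ⟨z * D2, ?_⟩
    push_cast
    rw [← hz]
    ring
  · obtain ⟨z, hz⟩ := h4 i hi
    refine ⟨D1 * z, ?_⟩
    push_cast
    rw [← hz]
    ring

theorem SML_int (l : Rec) : ∃ (D : ℕ) (f c : ℕ → ℤ), 0 < D ∧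
    (∀ n, (f n : ℚ) = (D : ℚ) ^ (n + 1) * seq l n) ∧
    ∀ n, f (n + l.length) = ∑ i ∈ Finset.range l.length, c i * f (n + l.length - 1 - i) := by
  obtain ⟨D, hD, ha, hb⟩ := SML_den2 (coef l) (ini l) l.length
  have hc : ∀ i : ℕ, ∃ z : ℤ, i < l.length → (z : ℚ) = (D : ℚ) ^ (i + 1) * coef l i := by
    intro i
    by_cases hi : i < l.length
    · obtain ⟨z, hz⟩ := ha i hi
      refine ⟨D ^ i * z, fun _ => ?_⟩
      push_cast
      rw [← hz, pow_succ]
      ring
    · exact ⟨0, fun h => absurd h hi⟩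
  choose c hc using hc
  have hstep : ∀ n, (D : ℚ) ^ (n + l.length + 1) * seq l (n + l.length) =
      ∑ i ∈ Finset.range l.length, (c i : ℚ) *
        ((D : ℚ) ^ (n + l.length - 1 - i + 1) * seq l (n + l.length - 1 - i)) := by
    intro n
    rw [SML_rec, Finset.mul_sum]
    refine Finset.sum_congr rfl fun i hi => ?_
    rw [Finset.mem_range] at hi
    rw [hc i hi]
    have e : n + l.length + 1 = (i + 1) + (n + l.length - 1 - i + 1) := by omega
    rw [e, pow_add]
    ring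
  have hf : ∀ n : ℕ, ∃ z : ℤ, (z : ℚ) = (D : ℚ) ^ (n + 1) * seq l n := by
    intro n
    induction n using Nat.strong_induction_on with
    | _ n ih =>
      by_cases hn : n < l.length
      · obtain ⟨z, hz⟩ := hb n hn
        refine ⟨D ^ n * z, ?_⟩
        rw [seq, if_pos hn]
        push_cast
        rw [← hz, pow_succ]
        ring
      · obtain ⟨m, rfl⟩ : ∃ m, n = m + l.length := ⟨n - l.length, by omega⟩
        rw [hstep]
        have h2 : ∀ i : ℕ, ∃ z : ℤ, i < l.length → (z : ℚ) =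
            (D : ℚ) ^ (m + l.length - 1 - i + 1) * seq l (m + l.length - 1 - i) := by
          intro i
          by_cases hi : i < l.length
          · obtain ⟨z, hz⟩ := ih (m + l.length - 1 - i) (by omega)
            exact ⟨z, fun _ => hz⟩
          · exact ⟨0, fun h => absurd h hi⟩
        choose g hg using h2
        refine ⟨∑ i ∈ Finset.range l.length, c i * g i, ?_⟩
        push_cast
        refine Finset.sum_congr rfl fun i hi => ?_
        rw [Finset.mem_range] at hi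
        rw [hg i hi]
  choose f hf using hf
  refine ⟨D, f, c, hD, hf, fun n => ?_⟩
  have h1 : ((f (n + l.length) : ℤ) : ℚ) =
      ((∑ i ∈ Finset.range l.length, c i * f (n + l.length - 1 - i) : ℤ) : ℚ) := by
    rw [hf, hstep]
    push_cast
    refine Finset.sum_congr rfl fun i _ => ?_
    rw [hf]
  exact_mod_cast h1

theorem SML_growth (f c : ℕ → ℤ) (k : ℕ)
    (h : ∀ n, f (n + k) = ∑ i ∈ Finset.range k, c i * f (n + k - 1 - i)) (G : ℤ) (hG : 1 ≤ G)
    (hc : ∑ i ∈ Finset.range k, |c i| ≤ G) (hf : ∀ i < k, |f i| ≤ G) (n : ℕ) :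
    |f n| ≤ G ^ (n + 1) := by
  induction n using Nat.strong_induction_on with
  | _ n ih =>
    by_cases hn : n < k
    · refine (hf n hn).trans ?_
      calc G = G ^ 1 := (pow_one G).symm
        _ ≤ G ^ (n + 1) := pow_le_pow_right₀ hG (by omega)
    · obtain ⟨m, rfl⟩ : ∃ m, n = m + k := ⟨n - k, by omega⟩
      rw [h]
      calc |∑ i ∈ Finset.range k, c i * f (m + k - 1 - i)|
          ≤ ∑ i ∈ Finset.range k, |c i * f (m + k - 1 - i)| := Finset.abs_sum_le_sum_abs _ _
        _ ≤ ∑ i ∈ Finset.range k, |c i| * G ^ (m + k) := by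
            apply Finset.sum_le_sum
            intro i hi
            rw [Finset.mem_range] at hi
            rw [abs_mul]
            apply mul_le_mul_of_nonneg_left _ (abs_nonneg _)
            refine (ih (m + k - 1 - i) (by omega)).trans ?_
            exact pow_le_pow_right₀ hG (by omega)
        _ = (∑ i ∈ Finset.range k, |c i|) * G ^ (m + k) := by rw [Finset.sum_mul]
        _ ≤ G * G ^ (m + k) := mul_le_mul_of_nonneg_right hc (by positivity)
        _ = G ^ (m + k + 1) := by rw [pow_succ]; ring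

theorem SML_bd (f c : ℕ → ℤ) (k : ℕ)
    (h : ∀ n, f (n + k) = ∑ i ∈ Finset.range k, c i * f (n + k - 1 - i)) :
    ∃ d K G : ℕ, Bd f d K G := by
  obtain ⟨Q, hQ⟩ : ∃ Q : ℤ[X], Q = X ^ k - ∑ i ∈ Finset.range k, C (c i) * X ^ (k - 1 - i) :=
    ⟨_, rfl⟩
  have hdeg : (∑ i ∈ Finset.range k, C (c i) * X ^ (k - 1 - i) : ℤ[X]).degree < (k : WithBot ℕ) := by
    rw [Polynomial.degree_lt_iff_coeff_zero]
    intro m hm
    rw [Polynomial.finset_sum_coeff]
    refine Finset.sum_eq_zero fun i hi => ?_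
    rw [Finset.mem_range] at hi
    rw [Polynomial.coeff_C_mul, Polynomial.coeff_X_pow, if_neg (by omega), mul_zero]
  have hmon : Q.Monic := by
    rw [hQ]
    exact Polynomial.monic_X_pow_sub hdeg
  have hann : Ann Q f := by
    apply ann_of_pow
    intro n
    rw [hQ, sub_mul, map_sub, ← pow_add, phi_X_pow, Finset.sum_mul, map_sum, add_comm k n, h n,
      sub_eq_zero]
    refine Finset.sum_congr rfl fun i hi => ?_
    rw [Finset.mem_range] at hi
    rw [mul_assoc, phi_C_mul, ← pow_add, phi_X_pow]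
    congr 2
    omega
  obtain ⟨P, hP, hnd⟩ := Polynomial.exists_eq_pow_rootMultiplicity_mul_and_not_dvd Q hmon.ne_zero 0
  rw [C_0, sub_zero] at hP hnd
  obtain ⟨j, hj⟩ : ∃ j : ℕ, j = Q.rootMultiplicity 0 := ⟨_, rfl⟩
  rw [← hj] at hP
  have hPm : P.Monic := by
    rw [hP] at hmon
    exact (monic_X_pow j).of_mul_monic_left hmon
  refine ⟨j + P.natDegree, (P.coeff 0).natAbs, 1 + ∑ i ∈ Finset.range k, (c i).natAbs +
    ∑ i ∈ Finset.range k, (f i).natAbs, j, P, hPm, le_rfl, ?_, ?_, ?_, ?_⟩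
  · intro h0
    exact hnd (Polynomial.X_dvd_iff.mpr h0)
  · rw [Int.natCast_natAbs]
  · rw [← hP]
    exact hann
  · apply SML_growth f c k h
    · push_cast
      have h1 : 0 ≤ ∑ i ∈ Finset.range k, |c i| := Finset.sum_nonneg fun _ _ => abs_nonneg _
      have h2 : 0 ≤ ∑ i ∈ Finset.range k, |f i| := Finset.sum_nonneg fun _ _ => abs_nonneg _
      linarith
    · push_cast
      have h2 : 0 ≤ ∑ i ∈ Finset.range k, |f i| := Finset.sum_nonneg fun _ _ => abs_nonneg _
      linarith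
    · intro i hi
      push_cast
      have h1 : 0 ≤ ∑ i ∈ Finset.range k, |c i| := Finset.sum_nonneg fun _ _ => abs_nonneg _
      have h2 : |f i| ≤ ∑ i ∈ Finset.range k, |f i| :=
        Finset.single_le_sum (f := fun i => |f i|) (fun _ _ => abs_nonneg _)
          (Finset.mem_range.mpr hi)
      linarith

theorem SML_zeros (f : ℕ → ℤ) (d K G k : ℕ) (h : Bd f d K G)
    (hz : ∀ N : ℕ, ∃ n, N ≤ n ∧ f n = 0) :
    ∃ n0 T : ℕ, k ≤ n0 ∧ 1 ≤ T ∧ ∀ t : ℕ, f (n0 + T * t) = 0 := by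
  obtain ⟨p, hpge, hp⟩ := Nat.exists_infinite_primes (K + 3)
  obtain ⟨L, hL, -, hgood⟩ := good_of_bd h hp (by omega) (by omega)
  have hg := hgood L dvd_rfl
  by_contra hcon
  push Not at hcon
  have hinf : {n : ℕ | d + k ≤ n ∧ f n = 0}.Infinite := by
    rw [Set.infinite_iff_exists_gt]
    intro N
    obtain ⟨n, hn, hn0⟩ := hz (N + 1 + (d + k))
    exact ⟨n, ⟨by omega, hn0⟩, by omega⟩
  obtain ⟨A, hA, hcard⟩ := hinf.exists_subset_card_eq (NB d G L + 1)
  have := exc_count hL hg A (fun n hn => by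
    have h1 : d + k ≤ n ∧ f n = 0 := hA hn
    exact ⟨by omega, h1.2, hcon n L (by omega) hL⟩)
  omega

theorem t_SML : S_SML := by
  intro l _ hz
  obtain ⟨D, f, c, hD, hf, hrec⟩ := SML_int l
  have hDq : ∀ n : ℕ, ((D : ℚ) ^ (n + 1)) ≠ 0 := by
    intro n
    have : (D : ℚ) ≠ 0 := by
      have : (0 : ℚ) < D := by exact_mod_cast hD
      exact this.ne'
    exact pow_ne_zero _ this
  have hiff : ∀ n, f n = 0 ↔ seq l n = 0 := by
    intro n
    constructor
    · intro h
      have h1 := hf n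
      rw [h, Int.cast_zero] at h1
      exact (mul_eq_zero.mp h1.symm).resolve_left (hDq n)
    · intro h
      have h1 := hf n
      rw [h, mul_zero] at h1
      exact_mod_cast h1
  obtain ⟨d, K, G, hbd⟩ := SML_bd f c l.length hrec
  obtain ⟨n0, T, h1, h2, h3⟩ := SML_zeros f d K G l.length hbd (fun N => by
    obtain ⟨n, hn, hn0⟩ := hz N
    exact ⟨n, hn, (hiff n).mpr hn0⟩)
  exact ⟨n0, T, h1, h2, fun t => (hiff _).mp (h3 t)⟩

end Pool.Agent.H612.LR
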